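import Pool.Agent.Y245.SG.Stm
import Pool.Agent.TH298.AN.Final

/-!
Project LR (helper245): discs are isolated among Schiffer domains, uniformly for bounded
frequencies, by Bourget's hypothesis (project SG) and the annulus theorem
`Pool.Agent.TH298.AN.annular_main`.
-/

set_option autoImplicit false

open MeasureTheory Metric Set
open Pool.Agent.TH298.Sch (Sol)
open TH259.NS (J)
open Pool.Agent.Y245.SG (Bn)

namespace Pool.Agent.Y245.LR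

/-- Bourget's hypothesis for `J_1`, real form -/
def Bouj : Prop := ∀ t : ℝ, 0 < t → J 1 t = 0 → ∀ N : ℕ, 2 ≤ N → J N t ≠ 0

def S_BOUJ : Prop := (∀ (m : ℕ) (q : ℂ), 2 ≤ m → q ≠ 0 → ¬ (Bn 1 q = 0 ∧ Bn m q = 0)) → Bouj

/-- windows without zeros -/
def S_WIN : Prop := ∀ t0 : ℝ, 0 < t0 → (∀ N : ℕ, 2 ≤ N → J N t0 ≠ 0) →
  ∃ η : ℝ, 0 < η ∧ η < t0 ∧ ∀ N : ℕ, 2 ≤ N → ∀ t : ℝ, |t - t0| ≤ η → J N t ≠ 0

def S_SMALL : Prop := ∀ N : ℕ, 2 ≤ N → ∀ t : ℝ, 0 < t → t ≤ 1 → J N t ≠ 0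

/-- no Schiffer domain close to a disc that is not a Schiffer domain -/
def S_NON : Prop := ∀ t0 : ℝ, 0 < t0 → J 1 t0 ≠ 0 → ∃ η : ℝ, 0 < η ∧ η < t0 ∧
  ∀ (Ω : Set ℂ) (lam c a b : ℝ) (q : ℂ) (u : ℂ → ℝ) (G : ℂ → ℂ), IsOpen Ω →
    Bornology.IsBounded Ω → 0 < lam → Sol Ω lam c u G → ¬ (u =ᵐ[volume.restrict Ω] 0) →
    ball q a ⊆ Ω → Ω ⊆ closedBall q b → t0 - η ≤ √lam * a → √lam * b ≤ t0 + η → False

/-- the final statement -/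
def Final : Prop := ∀ T : ℝ, 0 < T → ∃ ε : ℝ, 0 < ε ∧ ε < 1 ∧
  ∀ (Ω : Set ℂ) (lam c r : ℝ) (q : ℂ) (u : ℂ → ℝ) (G : ℂ → ℂ), IsOpen Ω →
    Bornology.IsBounded Ω → Ω.Nonempty → IsPreconnected Ωᶜ → interior (closure Ω) = Ω →
    volume (frontier Ω) = 0 → 0 < lam → 0 < r → √lam * r ≤ T →
    ball q ((1 - ε) * r) ⊆ Ω → Ω ⊆ closedBall q ((1 + ε) * r) →
    Sol Ω lam c u G → ¬ (u =ᵐ[volume.restrict Ω] 0) →
    ∃ (p : ℂ) (r' : ℝ), 0 < r' ∧ Ω = ball p r' ∧ J 1 (√lam * r') = 0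

def S_LRF : Prop := S_WIN → S_SMALL → S_NON → Bouj → Final

end Pool.Agent.Y245.LR
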